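import Pool.Agent.Helper613.KNMain

set_option autoImplicit false

namespace Pool.Agent.Results.MP_84cd0b_gt.KontorovichNakamura

open Pool.Agent.Helper613.KN

/-- **The Kontorovich-Nakamura conjecture.** Let `X` be the vertex set of a convex polyhedron `P`
in `ℝ³` with the unit sphere as midsphere, and let `Γ_P` be the group generated by the hyperbolic
reflections in the planes of the faces of `P` and of its polar dual. If `Γ_P` is arithmetic, that
is (it contains parabolic elements), commensurable up to conjugation in `Isom(ℍ³)` with
`PSL₂(ℤ[√-d])` for some squarefree `d`, then `d` is `1`, `2` or `6`.

Idea of the proof. Powers of the products of two reflections of `Γ_P` preserve a lattice; this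
makes the cusps (the points of tangency of the edges) rational, and shows that, with white walls
(faces) of norm `2` and black walls (vertices) of norm `2 d`, all products of walls are integers
and all products with a black wall are in `d ℤ`. Enlarge the `ℤ`-span of the walls to a lattice
`M` which is maximal with `⟨x, x⟩ ∈ 2 ℤ` and `⟨x, b⟩ ∈ d ℤ` for all black walls `b`, and consider
the cusp `p` whose primitive isotropic vector `e ∈ M` has the largest last coordinate. Each of the
four corners of `p` joins it to another cusp which is not higher, and this bounds the last
coordinates of the four walls through `p`; the maximality of `M` gives congruences modulo `2` and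
`4` between the corners. Together they leave only `d = 1, 2, 6`. -/
theorem result (X : Finset (Fin 3 → ℝ)) (hX : IsMidscribed X) (d : ℕ) (hd : Squarefree d)
    (harith : CommensurableUpToConj (polyhedronGroup X) (bianchi d)) :
    d = 1 ∨ d = 2 ∨ d = 6 :=
  main hX hd harith

end Pool.Agent.Results.MP_84cd0b_gt.KontorovichNakamura
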